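import Mathlib

/-!
# Covers of two-coloured cocktail-party graphs by two subgraphs of small diameter

Let `G_n` be the complete graph on `n = 2 m` vertices minus a perfect matching, with a 2-colouring of
its edges.

1. There is a `(2, 3)`-cover.
2. There is a `(2, 2)`-cover if some vertex and its partner are in no triangle of one of the colours;
   in particular if one colour class is triangle-free.
3. If there is no `(2, 2)`-cover, then every vertex and its partner have common neighbours in both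
   colours, and for every vertex `v` and each colour some vertex `x` which has this colour to `v` and
   the other colour to the partner of `v` has the other colour to all common neighbours, in this
   colour, of `v` and its partner (except the partner of `x`).

Proof.  If `v` and its partner `v'` have a common blue neighbour, the red star at `v` and the blue
graph on `v`, `v'` and the blue neighbours of `v` are a `(2, 3)`-cover; if they have neither a common
red nor a common blue neighbour, the blue stars at `v` and `v'` cover everything.  If `x` is missing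
in part 3, all blue neighbours of `v` have distance at most two from `v'` in the blue graph.  For
part 2 let the blue neighbourhoods of `v` and `v'` have no blue edges.  The red star at `v` and `v'`
with the blue neighbours of `v` is a `(2, 2)`-cover unless the only blue neighbour of `v` joined to
`v'` in red is the partner `q` of a common blue neighbour of `v` and `v'`; the same holds for `v'`
with a vertex `p`.  Then `v`, `v'`, their common red neighbours and possibly `p` or `q` form one part,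
the blue neighbours of `v` or of `v'` or of both the other one, and in the last case the blue graph
itself has diameter two.
-/

set_option autoImplicit false

namespace Pool.Agent.N382.CP

/-- The vertices of `G_n`, `n = 2 m`. -/
abbrev Vert (m : ℕ) := Fin m × Bool

/-- The vertex matched with `v`. -/
def partner {m : ℕ} (v : Vert m) : Vert m := (v.1, !v.2)

/-- `G_n`, `n = 2 m`: the complete graph minus the perfect matching `v`, `partner v`. -/
def cocktail (m : ℕ) : SimpleGraph (Vert m) where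
  Adj u w := u.1 ≠ w.1
  symm := ⟨fun _ _ h => Ne.symm h⟩
  loopless := ⟨fun _ h => h rfl⟩

/-- All edges of the subgraph `H` have colour `b` in the colouring `c`. -/
def Mono {m : ℕ} (c : Vert m → Vert m → Bool) (b : Bool) (H : (cocktail m).Subgraph) : Prop :=
  ∀ u w, H.Adj u w → c u w = b

/-- The diameter of the subgraph `H` is at most `d`: any two of its vertices are joined by a walk in
`H` with at most `d` edges. -/
def DiamLe {m : ℕ} (H : (cocktail m).Subgraph) (d : ℕ) : Prop :=
  ∀ u w : H.verts, ∃ p : H.coe.Walk u w, p.length ≤ d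

/-- The coloured graph has a `(p, q)`-cover. -/
def HasCover {m : ℕ} (c : Vert m → Vert m → Bool) (p q : ℕ) : Prop :=
  ∃ H₁ H₂ : (cocktail m).Subgraph, (∃ b, Mono c b H₁) ∧ (∃ b, Mono c b H₂) ∧
    DiamLe H₁ p ∧ DiamLe H₂ q ∧ H₁.verts ∪ H₂.verts = Set.univ

/-- the subgraph of all edges of colour `b` inside `S` -/
def sub {m : ℕ} (c : Vert m → Vert m → Bool) (hc : ∀ u w, c u w = c w u) (b : Bool)
    (S : Set (Vert m)) : (cocktail m).Subgraph where
  verts := S
  Adj u w := u ∈ S ∧ w ∈ S ∧ u.1 ≠ w.1 ∧ c u w = b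
  adj_sub := fun h => h.2.2.1
  edge_vert := fun h => h.1
  symm := ⟨fun u w h => ⟨h.2.1, h.1, Ne.symm h.2.2.1, by rw [hc]; exact h.2.2.2⟩⟩

lemma sub_mono {m : ℕ} (c : Vert m → Vert m → Bool) (hc : ∀ u w, c u w = c w u) (b : Bool)
    (S : Set (Vert m)) : Mono c b (sub c hc b S) := fun _ _ h => h.2.2.2

/-- step -/
lemma sub_adj {m : ℕ} {c : Vert m → Vert m → Bool} {hc : ∀ u w, c u w = c w u} {b : Bool}
    {S : Set (Vert m)} {u w : Vert m} (hu : u ∈ S) (hw : w ∈ S) (h : u.1 ≠ w.1)
    (hb : c u w = b) : (sub c hc b S).coe.Adj ⟨u, hu⟩ ⟨w, hw⟩ := by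
  rw [SimpleGraph.Subgraph.coe_adj]
  exact ⟨hu, hw, h, hb⟩

/-- every vertex of `S` is equal or joined to `v` -/
lemma star_diam {m : ℕ} (c : Vert m → Vert m → Bool) (hc : ∀ u w, c u w = c w u) (b : Bool)
    (v : Vert m) (S : Set (Vert m)) (hv : v ∈ S)
    (hS : ∀ u ∈ S, u = v ∨ (v.1 ≠ u.1 ∧ c v u = b)) : DiamLe (sub c hc b S) 2 := by
  have key : ∀ u : (sub c hc b S).verts, ∃ p : (sub c hc b S).coe.Walk ⟨v, hv⟩ u, p.length ≤ 1 := by
    rintro ⟨u, hu⟩
    rcases hS u hu with rfl | ⟨h1, h2⟩
    · exact ⟨SimpleGraph.Walk.nil, by simp⟩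
    · exact ⟨SimpleGraph.Walk.cons (sub_adj hv hu h1 h2) SimpleGraph.Walk.nil, by simp⟩
  intro u w
  obtain ⟨p, hp⟩ := key u
  obtain ⟨q, hq⟩ := key w
  refine ⟨p.reverse.append q, ?_⟩
  rw [SimpleGraph.Walk.length_append, SimpleGraph.Walk.length_reverse]
  omega

/-- `v`, `v'` and the neighbours of `v`, with a common neighbour `z` of `v` and `v'` -/
lemma big_diam {m : ℕ} (c : Vert m → Vert m → Bool) (hc : ∀ u w, c u w = c w u) (b : Bool)
    (v v' z : Vert m) (S : Set (Vert m)) (hv : v ∈ S) (hv' : v' ∈ S) (hz : z ∈ S)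
    (h1 : v.1 ≠ z.1) (h2 : c v z = b) (h3 : v'.1 ≠ z.1) (h4 : c v' z = b)
    (hS : ∀ u ∈ S, u = v ∨ u = v' ∨ (v.1 ≠ u.1 ∧ c v u = b)) : DiamLe (sub c hc b S) 3 := by
  have key : ∀ u : (sub c hc b S).verts, (u : Vert m) = v' ∨
      ∃ p : (sub c hc b S).coe.Walk ⟨v, hv⟩ u, p.length ≤ 1 := by
    rintro ⟨u, hu⟩
    rcases hS u hu with rfl | rfl | ⟨h1, h2⟩
    · exact Or.inr ⟨SimpleGraph.Walk.nil, by simp⟩
    · exact Or.inl rfl
    · exact Or.inr ⟨SimpleGraph.Walk.cons (sub_adj hv hu h1 h2) SimpleGraph.Walk.nil, by simp⟩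
  have key' : ∃ p : (sub c hc b S).coe.Walk ⟨v, hv⟩ ⟨v', hv'⟩, p.length ≤ 2 :=
    ⟨SimpleGraph.Walk.cons (sub_adj hv hz h1 h2)
      (SimpleGraph.Walk.cons (sub_adj hz hv' (Ne.symm h3) (by rw [hc]; exact h4))
        SimpleGraph.Walk.nil), by simp⟩
  intro u w
  rcases key u with hu | ⟨p, hp⟩ <;> rcases key w with hw | ⟨q, hq⟩
  · have : u = w := Subtype.ext (hu.trans hw.symm)
    subst this
    exact ⟨SimpleGraph.Walk.nil, by simp⟩
  · obtain ⟨p, hp⟩ := key'
    have : u = ⟨v', hv'⟩ := Subtype.ext hu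
    subst this
    refine ⟨p.reverse.append q, ?_⟩
    rw [SimpleGraph.Walk.length_append, SimpleGraph.Walk.length_reverse]
    omega
  · obtain ⟨q, hq⟩ := key'
    have : w = ⟨v', hv'⟩ := Subtype.ext hw
    subst this
    refine ⟨p.reverse.append q, ?_⟩
    rw [SimpleGraph.Walk.length_append, SimpleGraph.Walk.length_reverse]
    omega
  · refine ⟨p.reverse.append q, ?_⟩
    rw [SimpleGraph.Walk.length_append, SimpleGraph.Walk.length_reverse]
    omega

lemma eq_or_partner {m : ℕ} {u v : Vert m} (h : u.1 = v.1) : u = v ∨ u = partner v := by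
  rcases u with ⟨i, b⟩
  rcases v with ⟨j, d⟩
  simp only at h
  subst h
  cases b <;> cases d <;> simp [partner]

/-- the structure of the colourings without a `(2, 2)`-cover -/
theorem structure22 {m : ℕ} (c : Vert m → Vert m → Bool) (hc : ∀ u w, c u w = c w u)
    (hno : ¬ HasCover c 2 2) (v : Vert m) (b : Bool) :
    (∃ z, z.1 ≠ v.1 ∧ c v z = b ∧ c (partner v) z = b) ∧
    ∃ x, x.1 ≠ v.1 ∧ c v x = b ∧ c (partner v) x = !b ∧
      ∀ y, y.1 ≠ v.1 → y.1 ≠ x.1 → c v y = b → c (partner v) y = b → c x y = !b := by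
  have hA : ∃ z, z.1 ≠ v.1 ∧ c v z = b ∧ c (partner v) z = b := by
    by_contra hcon
    push Not at hcon
    apply hno
    refine ⟨sub c hc (!b) {u | u = v ∨ (v.1 ≠ u.1 ∧ c v u = !b)},
      sub c hc (!b) {u | u = partner v ∨ ((partner v).1 ≠ u.1 ∧ c (partner v) u = !b)},
      ⟨_, sub_mono _ _ _ _⟩, ⟨_, sub_mono _ _ _ _⟩,
      star_diam c hc (!b) v _ (Or.inl rfl) (fun u hu => hu),
      star_diam c hc (!b) (partner v) _ (Or.inl rfl) (fun u hu => hu), ?_⟩
    ext u
    simp only [Set.mem_union, Set.mem_univ, iff_true]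
    by_cases hu : u.1 = v.1
    · rcases eq_or_partner hu with h | h
      · exact Or.inl (Or.inl h)
      · exact Or.inr (Or.inl h)
    · by_cases h1 : c v u = b
      · refine Or.inr (Or.inr ⟨fun h => hu h.symm, ?_⟩)
        have := hcon u hu h1
        cases hb : b <;> cases hc' : c (partner v) u <;> simp_all
      · refine Or.inl (Or.inr ⟨fun h => hu h.symm, ?_⟩)
        cases hb : b <;> cases hc' : c v u <;> simp_all
  refine ⟨hA, ?_⟩
  obtain ⟨z, hz1, hz2, hz3⟩ := hA
  by_contra hcon
  push Not at hcon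
  apply hno
  set S : Set (Vert m) := {u | u = v ∨ u = partner v ∨ (v.1 ≠ u.1 ∧ c v u = b)} with hSdef
  refine ⟨sub c hc b S, sub c hc (!b) {u | u = v ∨ (v.1 ≠ u.1 ∧ c v u = !b)},
    ⟨_, sub_mono _ _ _ _⟩, ⟨_, sub_mono _ _ _ _⟩, ?_,
    star_diam c hc (!b) v _ (Or.inl rfl) (fun u hu => hu), ?_⟩
  · have hv : v ∈ S := Or.inl rfl
    have hv' : partner v ∈ S := Or.inr (Or.inl rfl)
    -- every vertex of `S` is joined to `v` or is the partner
    have key : ∀ u : (sub c hc b S).verts, (u : Vert m) = partner v ∨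
        ∃ p : (sub c hc b S).coe.Walk ⟨v, hv⟩ u, p.length ≤ 1 := by
      rintro ⟨u, hu⟩
      rcases hu with rfl | rfl | ⟨h1, h2⟩
      · exact Or.inr ⟨SimpleGraph.Walk.nil, by simp⟩
      · exact Or.inl rfl
      · exact Or.inr ⟨SimpleGraph.Walk.cons (sub_adj hv (Or.inr (Or.inr ⟨h1, h2⟩)) h1 h2)
          SimpleGraph.Walk.nil, by simp⟩
    -- every vertex of `S` is at distance at most two from the partner
    have key' : ∀ u : (sub c hc b S).verts,
        ∃ p : (sub c hc b S).coe.Walk ⟨partner v, hv'⟩ u, p.length ≤ 2 := by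
      have hzS : z ∈ S := Or.inr (Or.inr ⟨fun h => hz1 h.symm, hz2⟩)
      rintro ⟨u, hu⟩
      rcases hu with rfl | rfl | ⟨h1, h2⟩
      · exact ⟨SimpleGraph.Walk.cons (sub_adj hv' hzS (fun h => hz1 h.symm) hz3)
          (SimpleGraph.Walk.cons (sub_adj hzS hv hz1 (by rw [hc]; exact hz2))
            SimpleGraph.Walk.nil), by simp⟩
      · exact ⟨SimpleGraph.Walk.nil, by simp⟩
      · have huS : u ∈ S := Or.inr (Or.inr ⟨h1, h2⟩)
        by_cases h3 : c (partner v) u = b
        · exact ⟨SimpleGraph.Walk.cons (sub_adj hv' huS h1 h3) SimpleGraph.Walk.nil, by simp⟩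
        · have h3' : c (partner v) u = !b := by
            cases hb : b <;> cases hc' : c (partner v) u <;> simp_all
          obtain ⟨y, hy1, hy2, hy3, hy4, hy5⟩ := hcon u (fun h => h1 h.symm) h2 h3'
          have hyS : y ∈ S := Or.inr (Or.inr ⟨fun h => hy1 h.symm, hy3⟩)
          have hy6 : c y u = b := by
            rw [hc]
            cases hb : b <;> cases hc' : c u y <;> simp_all
          exact ⟨SimpleGraph.Walk.cons (sub_adj hv' hyS (fun h => hy1 h.symm) hy4)
            (SimpleGraph.Walk.cons (sub_adj hyS huS hy2 hy6) SimpleGraph.Walk.nil), by simp⟩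
    intro u w
    rcases key u with hu | ⟨p, hp⟩
    · have : u = ⟨partner v, hv'⟩ := Subtype.ext hu
      subst this
      exact key' w
    · rcases key w with hw | ⟨q, hq⟩
      · have : w = ⟨partner v, hv'⟩ := Subtype.ext hw
        subst this
        obtain ⟨q, hq⟩ := key' u
        exact ⟨q.reverse, by rw [SimpleGraph.Walk.length_reverse]; exact hq⟩
      · refine ⟨p.reverse.append q, ?_⟩
        rw [SimpleGraph.Walk.length_append, SimpleGraph.Walk.length_reverse]
        omega
  · ext u
    simp only [Set.mem_union, Set.mem_univ, iff_true]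
    by_cases hu : u.1 = v.1
    · rcases eq_or_partner hu with h | h
      · exact Or.inl (Or.inl h)
      · exact Or.inl (Or.inr (Or.inl h))
    · by_cases h1 : c v u = b
      · exact Or.inl (Or.inr (Or.inr ⟨fun h => hu h.symm, h1⟩))
      · refine Or.inr (Or.inr ⟨fun h => hu h.symm, ?_⟩)
        exact Bool.eq_not.mpr h1

/-- `u` and `w` are joined in colour `b` -/
def E {m : ℕ} (c : Vert m → Vert m → Bool) (b : Bool) (u w : Vert m) : Prop :=
  u.1 ≠ w.1 ∧ c u w = b

lemma E.symm {m : ℕ} {c : Vert m → Vert m → Bool} (hc : ∀ u w, c u w = c w u) {b : Bool}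
    {u w : Vert m} (h : E c b u w) : E c b w u := ⟨Ne.symm h.1, by rw [hc]; exact h.2⟩

/-- any two members of `S` are equal, joined or have a common neighbour in `S` -/
def Near {m : ℕ} (c : Vert m → Vert m → Bool) (b : Bool) (S : Set (Vert m)) : Prop :=
  ∀ u ∈ S, ∀ w ∈ S, u = w ∨ E c b u w ∨ ∃ z ∈ S, E c b u z ∧ E c b z w

lemma near_diam {m : ℕ} (c : Vert m → Vert m → Bool) (hc : ∀ u w, c u w = c w u) (b : Bool)
    (S : Set (Vert m)) (h : Near c b S) : DiamLe (sub c hc b S) 2 := by
  rintro ⟨u, hu⟩ ⟨w, hw⟩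
  have hu' : u ∈ S := hu
  have hw' : w ∈ S := hw
  rcases h u hu' w hw' with rfl | h1 | ⟨z, hz, h1, h2⟩
  · exact ⟨SimpleGraph.Walk.nil, by simp⟩
  · exact ⟨SimpleGraph.Walk.cons (sub_adj hu' hw' h1.1 h1.2) SimpleGraph.Walk.nil, by simp⟩
  · exact ⟨SimpleGraph.Walk.cons (sub_adj hu' hz h1.1 h1.2)
      (SimpleGraph.Walk.cons (sub_adj hz hw' h2.1 h2.2) SimpleGraph.Walk.nil), by simp⟩

lemma cover_of {m : ℕ} {c : Vert m → Vert m → Bool} (hc : ∀ u w, c u w = c w u) {b₁ b₂ : Bool}
    {S T : Set (Vert m)} (hS : Near c b₁ S) (hT : Near c b₂ T) (h : ∀ u, u ∈ S ∨ u ∈ T) :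
    HasCover c 2 2 := by
  refine ⟨sub c hc b₁ S, sub c hc b₂ T, ⟨_, sub_mono _ _ _ _⟩, ⟨_, sub_mono _ _ _ _⟩,
    near_diam c hc b₁ S hS, near_diam c hc b₂ T hT, ?_⟩
  ext u
  simp only [Set.mem_union, Set.mem_univ, iff_true]
  exact h u

lemma E_or {m : ℕ} (c : Vert m → Vert m → Bool) (b : Bool) {u w : Vert m} (h : u.1 ≠ w.1) :
    E c b u w ∨ E c (!b) u w := by
  by_cases h1 : c u w = b
  · exact Or.inl ⟨h, h1⟩
  · exact Or.inr ⟨h, Bool.eq_not.mpr h1⟩

lemma E_not {m : ℕ} {c : Vert m → Vert m → Bool} {b : Bool} {u w : Vert m} (h : E c b u w)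
    (h' : E c (!b) u w) : False := by
  have h1 := h.2
  have h2 := h'.2
  rw [h1] at h2
  cases b <;> simp at h2

/-- no triangle of colour `b` contains `v` -/
def NoTriangleAt {m : ℕ} (c : Vert m → Vert m → Bool) (b : Bool) (v : Vert m) : Prop :=
  ∀ x y : Vert m, v.1 ≠ x.1 → v.1 ≠ y.1 → x.1 ≠ y.1 → ¬ (c v x = b ∧ c v y = b ∧ c x y = b)

lemma tf_red {m : ℕ} {c : Vert m → Vert m → Bool} {b : Bool}
    {v u w : Vert m} (htf : NoTriangleAt c b v) (hu : E c b v u) (hw : E c b v w)
    (h : u.1 ≠ w.1) : E c (!b) u w := by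
  rcases E_or c b h with h1 | h1
  · exact absurd ⟨hu.2, hw.2, h1.2⟩ (htf u w hu.1 hw.1 h)
  · exact h1

lemma nearB {m : ℕ} {c : Vert m → Vert m → Bool} {b : Bool}
    {v d₀ d₁ : Vert m} (htf : NoTriangleAt c b v) (h₀ : E c b v d₀) (h₁ : E c b v d₁)
    (hne : d₀.1 ≠ d₁.1) : Near c (!b) {u | E c b v u} := by
  intro u hu w hw
  by_cases h : u.1 = w.1
  · right; right
    by_cases h0 : u.1 = d₀.1
    · exact ⟨d₁, h₁, tf_red htf hu h₁ (by rw [h0]; exact hne),
        tf_red htf h₁ hw (by rw [← h, h0]; exact Ne.symm hne)⟩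
    · exact ⟨d₀, h₀, tf_red htf hu h₀ h0, tf_red htf h₀ hw (by rw [← h]; exact Ne.symm h0)⟩
  · exact Or.inr (Or.inl (tf_red htf hu hw h))

lemma partner_fst {m : ℕ} (v : Vert m) : (partner v).1 = v.1 := rfl

lemma partner_partner {m : ℕ} (v : Vert m) : partner (partner v) = v := by
  rcases v with ⟨i, b⟩
  simp [partner]

/-- step 1 -/
lemma step1 {m : ℕ} {c : Vert m → Vert m → Bool} (hc : ∀ u w, c u w = c w u) {b : Bool}
    (hno : ¬ HasCover c 2 2) (v : Vert m) (htf : NoTriangleAt c b v) :
    ∃ d, E c b v d ∧ E c b (partner v) d ∧ E c b v (partner d) ∧ E c (!b) (partner v) (partner d) ∧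
      ∀ q, E c b v q → E c (!b) (partner v) q → q = partner d := by
  obtain ⟨-, x, hx1, hx2, hx3, -⟩ := structure22 c hc hno v b
  have hxv : E c b v x := ⟨Ne.symm hx1, hx2⟩
  have hxv' : E c (!b) (partner v) x := ⟨Ne.symm hx1, hx3⟩
  have hmain : ∃ d, E c b v d ∧ E c b (partner v) d ∧
      ∀ q, E c b v q → E c (!b) (partner v) q → q = partner d := by
    by_contra hcon
    push Not at hcon
    apply hno
    refine cover_of hc (b₁ := !b) (b₂ := !b) (S := {u | u = v ∨ E c (!b) v u})
      (T := {u | u = partner v ∨ E c b v u}) ?_ ?_ ?_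
    · intro u hu w hw
      rcases hu with rfl | hu
      · rcases hw with rfl | hw
        · exact Or.inl rfl
        · exact Or.inr (Or.inl hw)
      · rcases hw with rfl | hw
        · exact Or.inr (Or.inl (hu.symm hc))
        · exact Or.inr (Or.inr ⟨v, Or.inl rfl, hu.symm hc, hw⟩)
    · -- the vertex `v'` and a neighbour of `v`
      have k1 : ∀ u, E c b v u → E c (!b) (partner v) u ∨
          ∃ z, E c b v z ∧ E c (!b) (partner v) z ∧ E c (!b) z u ∧ z.1 ≠ u.1 := by
        intro u hu
        rcases E_or c b (show (partner v).1 ≠ u.1 from hu.1) with h | h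
        · obtain ⟨q, hq1, hq2, hq3⟩ := hcon u hu h
          have hqu : q.1 ≠ u.1 := by
            intro h'
            rcases eq_or_partner h' with h'' | h''
            · subst h''
              exact E_not h hq2
            · exact hq3 h''
          exact Or.inr ⟨q, hq1, hq2, tf_red htf hq1 hu hqu, hqu⟩
        · exact Or.inl h
      intro u hu w hw
      rcases hu with rfl | hu
      · rcases hw with rfl | hw
        · exact Or.inl rfl
        · rcases k1 w hw with h | ⟨z, hz1, hz2, hz3, -⟩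
          · exact Or.inr (Or.inl h)
          · exact Or.inr (Or.inr ⟨z, Or.inr hz1, hz2, hz3⟩)
      · rcases hw with rfl | hw
        · rcases k1 u hu with h | ⟨z, hz1, hz2, hz3, -⟩
          · exact Or.inr (Or.inl (h.symm hc))
          · exact Or.inr (Or.inr ⟨z, Or.inr hz1, hz3.symm hc, hz2.symm hc⟩)
        · by_cases huw : u.1 = w.1
          · right; right
            rcases k1 u hu with h | ⟨z, hz1, hz2, hz3, hz4⟩
            · rcases k1 w hw with h' | ⟨z, hz1, hz2, hz3, hz4⟩
              · exact ⟨partner v, Or.inl rfl, h.symm hc, h'⟩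
              · exact ⟨z, Or.inr hz1,
                  tf_red htf hu hz1 (by rw [huw]; exact Ne.symm hz4), hz3⟩
            · exact ⟨z, Or.inr hz1, hz3.symm hc, tf_red htf hz1 hw (by rw [← huw]; exact hz4)⟩
          · exact Or.inr (Or.inl (tf_red htf hu hw huw))
    · intro u
      by_cases h : v.1 = u.1
      · rcases eq_or_partner h.symm with h | h
        · exact Or.inl (Or.inl h)
        · exact Or.inr (Or.inl h)
      · rcases E_or c b h with h | h
        · exact Or.inr (Or.inr h)
        · exact Or.inl (Or.inr h)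
  obtain ⟨d, hd1, hd2, hd3⟩ := hmain
  have := hd3 x hxv hxv'
  subst this
  exact ⟨d, hd1, hd2, hxv, hxv', hd3⟩

/-- step 2 -/
lemma step2 {m : ℕ} {c : Vert m → Vert m → Bool} (hc : ∀ u w, c u w = c w u) {b : Bool}
    (hno : ¬ HasCover c 2 2) {v d₀ d₁ a : Vert m} (htf : NoTriangleAt c b v)
    (h1 : E c b v d₀) (h3 : E c b v (partner d₀)) (h4 : E c (!b) (partner v) (partner d₀))
    (k2 : E c b v d₁) (hdd : d₀.1 ≠ d₁.1) (ha : E c (!b) v a) (ha' : E c (!b) (partner v) a) :
    E c b a d₀ := by
  have hne : a.1 ≠ d₀.1 := by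
    intro h
    rcases eq_or_partner h with h' | h'
    · rw [h'] at ha
      exact E_not h1 ha
    · rw [h'] at ha
      exact E_not h3 ha
  rcases E_or c b hne with h | had
  · exact h
  · exfalso
    apply hno
    refine cover_of hc (b₁ := !b) (b₂ := !b) (S := {u | u = v ∨ E c (!b) v u})
      (T := {u | u = partner v ∨ u = a ∨ E c b v u}) ?_ ?_ ?_
    · intro u hu w hw
      rcases hu with rfl | hu
      · rcases hw with rfl | hw
        · exact Or.inl rfl
        · exact Or.inr (Or.inl hw)
      · rcases hw with rfl | hw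
        · exact Or.inr (Or.inl (hu.symm hc))
        · exact Or.inr (Or.inr ⟨v, Or.inl rfl, hu.symm hc, hw⟩)
    · have k : ∀ u, E c b v u → E c (!b) (partner v) u ∨
          ∃ z ∈ {u | u = partner v ∨ u = a ∨ E c b v u},
            E c (!b) (partner v) z ∧ E c (!b) z u := by
        intro u hu
        rcases E_or c b (show (partner v).1 ≠ u.1 from hu.1) with h | h
        · by_cases hud : u = d₀
          · rw [hud]
            exact Or.inr ⟨a, Or.inr (Or.inl rfl), ha', had⟩
          · have hne2 : (partner d₀).1 ≠ u.1 := by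
              intro h'
              rcases eq_or_partner (show u.1 = d₀.1 from h'.symm) with h'' | h''
              · exact hud h''
              · rw [h''] at h
                exact E_not h h4
            exact Or.inr ⟨partner d₀, Or.inr (Or.inr h3), h4, tf_red htf h3 hu hne2⟩
        · exact Or.inl h
      have ka : ∀ u, E c b v u → E c (!b) a u ∨
          ∃ z ∈ {u | u = partner v ∨ u = a ∨ E c b v u}, E c (!b) a z ∧ E c (!b) z u := by
        intro u hu
        by_cases hud : u.1 = d₀.1
        · rcases eq_or_partner hud with h' | h'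
          · rw [h']; exact Or.inl had
          · rw [h']; exact Or.inr ⟨partner v, Or.inl rfl, ha'.symm hc, h4⟩
        · exact Or.inr ⟨d₀, Or.inr (Or.inr h1), had, tf_red htf h1 hu (Ne.symm hud)⟩
      intro u hu w hw
      rcases hu with hu | hu | hu <;> rcases hw with hw | hw | hw
      · exact Or.inl (hu.trans hw.symm)
      · rw [hu, hw]; exact Or.inr (Or.inl ha')
      · rw [hu]; exact Or.inr (k w hw)
      · rw [hu, hw]; exact Or.inr (Or.inl (ha'.symm hc))
      · exact Or.inl (hu.trans hw.symm)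
      · rw [hu]; exact Or.inr (ka w hw)
      · rw [hw]
        rcases k u hu with h | ⟨z, hz, h, h'⟩
        · exact Or.inr (Or.inl (h.symm hc))
        · exact Or.inr (Or.inr ⟨z, hz, h'.symm hc, h.symm hc⟩)
      · rw [hw]
        rcases ka u hu with h | ⟨z, hz, h, h'⟩
        · exact Or.inr (Or.inl (h.symm hc))
        · exact Or.inr (Or.inr ⟨z, hz, h'.symm hc, h.symm hc⟩)
      · rcases nearB htf h1 k2 hdd u hu w hw with h | h | ⟨z, hz, h⟩
        · exact Or.inl h
        · exact Or.inr (Or.inl h)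
        · exact Or.inr (Or.inr ⟨z, Or.inr (Or.inr hz), h⟩)
    · intro u
      by_cases h : v.1 = u.1
      · rcases eq_or_partner h.symm with h | h
        · exact Or.inl (Or.inl h)
        · exact Or.inr (Or.inl h)
      · rcases E_or c b h with h | h
        · exact Or.inr (Or.inr (Or.inr h))
        · exact Or.inl (Or.inr h)

/-- A colouring for which some vertex and its partner are in no triangle of one of the colours has a
`(2, 2)`-cover. -/
theorem triangle {m : ℕ} (c : Vert m → Vert m → Bool) (hc : ∀ u w, c u w = c w u)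
    (b : Bool) (v : Vert m) (htf : NoTriangleAt c b v) (htf' : NoTriangleAt c b (partner v)) :
    HasCover c 2 2 := by
  by_contra hno
  set v' : Vert m := partner v with hv'
  obtain ⟨d₀, h1, h2, h3, h4, h5⟩ := step1 hc hno v htf
  obtain ⟨d₁, k1, k2, k3, k4, k5⟩ := step1 hc hno v' htf'
  rw [hv', partner_partner] at k2 k4 k5
  rw [← hv'] at h2 h4 h5 k5
  set q := partner d₀ with hq
  set p := partner d₁ with hp
  -- `v` is joined to `d₀`, `d₁`, `q` in colour `b`, `v'` to `d₀`, `d₁`, `p`
  have hdd : d₀.1 ≠ d₁.1 := by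
    intro h
    rcases eq_or_partner h with h' | h'
    · have hqp : q = p := by rw [hq, hp, h']
      rw [hqp] at h4
      exact E_not k3 h4
    · rw [← hp] at h'
      rw [h'] at h1
      exact E_not h1 k4
  obtain ⟨⟨a, ha1, ha2, ha3⟩, -⟩ := structure22 c hc hno v (!b)
  have hav : E c (!b) v a := ⟨Ne.symm ha1, ha2⟩
  have hav' : E c (!b) v' a := ⟨Ne.symm ha1, ha3⟩
  -- the classes of the other vertices
  have cls : ∀ u : Vert m, u = v ∨ u = v' ∨ (E c (!b) v u ∧ E c (!b) v' u) ∨
      E c b v u ∨ u = p := by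
    intro u
    by_cases h : v.1 = u.1
    · rcases eq_or_partner h.symm with h | h
      · exact Or.inl h
      · exact Or.inr (Or.inl h)
    · rcases E_or c b h with h' | h'
      · exact Or.inr (Or.inr (Or.inr (Or.inl h')))
      · rcases E_or c b (show v'.1 ≠ u.1 from h) with h'' | h''
        · exact Or.inr (Or.inr (Or.inr (Or.inr (k5 u h'' h'))))
        · exact Or.inr (Or.inr (Or.inl ⟨h', h''⟩))
  have cls' : ∀ u : Vert m, u = v ∨ u = v' ∨ (E c (!b) v u ∧ E c (!b) v' u) ∨
      E c b v' u ∨ u = q := by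
    intro u
    by_cases h : v.1 = u.1
    · rcases eq_or_partner h.symm with h | h
      · exact Or.inl h
      · exact Or.inr (Or.inl h)
    · rcases E_or c b (show v'.1 ≠ u.1 from h) with h' | h'
      · exact Or.inr (Or.inr (Or.inr (Or.inl h')))
      · rcases E_or c b h with h'' | h''
        · exact Or.inr (Or.inr (Or.inr (Or.inr (h5 u h'' h'))))
        · exact Or.inr (Or.inr (Or.inl ⟨h'', h'⟩))
  have nB : Near c (!b) {u | E c b v u} := nearB htf h1 k2 hdd
  have nB' : Near c (!b) {u | E c b v' u} := nearB htf' h2 k1 hdd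
  -- `v`, `v'`, the common neighbours in the other colour, and `t`
  have nAg : ∀ a, E c (!b) v a → E c (!b) v' a → ∀ t x y : Vert m,
      (x = v ∧ y = v') ∨ (x = v' ∧ y = v) → E c (!b) x t → E c (!b) a t →
      Near c (!b) {u | u = v ∨ u = v' ∨ (E c (!b) v u ∧ E c (!b) v' u) ∨ u = t} := by
    intro a hav hav' t x y hxy hxt hat
    have aS : a ∈ {u | u = v ∨ u = v' ∨ (E c (!b) v u ∧ E c (!b) v' u) ∨ u = t} :=
      Or.inr (Or.inr (Or.inl ⟨hav, hav'⟩))
    have vS : v ∈ {u | u = v ∨ u = v' ∨ (E c (!b) v u ∧ E c (!b) v' u) ∨ u = t} := Or.inl rfl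
    have v'S : v' ∈ {u | u = v ∨ u = v' ∨ (E c (!b) v u ∧ E c (!b) v' u) ∨ u = t} :=
      Or.inr (Or.inl rfl)
    have xS : x ∈ {u | u = v ∨ u = v' ∨ (E c (!b) v u ∧ E c (!b) v' u) ∨ u = t} := by
      rcases hxy with h | h
      · rw [h.1]; exact vS
      · rw [h.1]; exact v'S
    have xA : ∀ u, (E c (!b) v u ∧ E c (!b) v' u) → E c (!b) x u := by
      intro u hu
      rcases hxy with h | h
      · rw [h.1]; exact hu.1
      · rw [h.1]; exact hu.2
    intro u hu w hw
    rcases hu with hu | hu | hu | hu <;> rcases hw with hw | hw | hw | hw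
    · exact Or.inl (hu.trans hw.symm)
    · rw [hu, hw]; exact Or.inr (Or.inr ⟨a, aS, hav, hav'.symm hc⟩)
    · rw [hu]; exact Or.inr (Or.inl hw.1)
    · rw [hu, hw]; exact Or.inr (Or.inr ⟨a, aS, hav, hat⟩)
    · rw [hu, hw]; exact Or.inr (Or.inr ⟨a, aS, hav', hav.symm hc⟩)
    · exact Or.inl (hu.trans hw.symm)
    · rw [hu]; exact Or.inr (Or.inl hw.2)
    · rw [hu, hw]; exact Or.inr (Or.inr ⟨a, aS, hav', hat⟩)
    · rw [hw]; exact Or.inr (Or.inl (hu.1.symm hc))
    · rw [hw]; exact Or.inr (Or.inl (hu.2.symm hc))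
    · exact Or.inr (Or.inr ⟨v, vS, hu.1.symm hc, hw.1⟩)
    · rw [hw]; exact Or.inr (Or.inr ⟨x, xS, (xA u hu).symm hc, hxt⟩)
    · rw [hu, hw]; exact Or.inr (Or.inr ⟨a, aS, hat.symm hc, hav.symm hc⟩)
    · rw [hu, hw]; exact Or.inr (Or.inr ⟨a, aS, hat.symm hc, hav'.symm hc⟩)
    · rw [hu]; exact Or.inr (Or.inr ⟨x, xS, hxt.symm hc, xA w hw⟩)
    · exact Or.inl (hu.trans hw.symm)
  have nA' : ∀ a', E c (!b) v a' → E c (!b) v' a' → ∀ t x y : Vert m,
      (x = v ∧ y = v') ∨ (x = v' ∧ y = v) → E c (!b) x t → E c (!b) a' t →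
      Near c (!b) {u | u = v ∨ u = v' ∨ (E c (!b) v u ∧ E c (!b) v' u) ∨ u = t} :=
    fun a' h h' => nAg a' h h'
  have cov1 : ∀ x, E c (!b) v x → E c (!b) v' x → E c (!b) x p → HasCover c 2 2 := by
    intro x hx hx' h
    refine cover_of hc (nA' x hx hx' p v v' (Or.inl ⟨rfl, rfl⟩) k4 h) nB fun u => ?_
    rcases cls u with h | h | h | h | h
    · exact Or.inl (Or.inl h)
    · exact Or.inl (Or.inr (Or.inl h))
    · exact Or.inl (Or.inr (Or.inr (Or.inl h)))
    · exact Or.inr h
    · exact Or.inl (Or.inr (Or.inr (Or.inr h)))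
  have cov2 : ∀ x, E c (!b) v x → E c (!b) v' x → E c (!b) x q → HasCover c 2 2 := by
    intro x hx hx' h
    refine cover_of hc (nA' x hx hx' q v' v (Or.inr ⟨rfl, rfl⟩) h4 h) nB' fun u => ?_
    rcases cls' u with h | h | h | h | h
    · exact Or.inl (Or.inl h)
    · exact Or.inl (Or.inr (Or.inl h))
    · exact Or.inl (Or.inr (Or.inr (Or.inl h)))
    · exact Or.inr h
    · exact Or.inl (Or.inr (Or.inr (Or.inr h)))
  have hdd' : q.1 ≠ p.1 := hdd
  -- `q` and `p` are joined or have a common neighbour in the other colour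
  have hpq : E c (!b) q p ∨ ∃ z, E c b v z ∧ E c b v' z ∧ E c (!b) q z ∧ E c (!b) z p := by
    rcases E_or c b hdd' with hqp | hqp
    swap
    · exact Or.inl hqp
    right
    by_contra hcon
    push Not at hcon
    -- the common neighbours in colour `b` are `d₀` and `d₁`
    have hD : ∀ u, E c b v u → E c b v' u → u = d₀ ∨ u = d₁ := by
      intro u hu hu'
      by_contra hcon2
      push Not at hcon2
      have e0 : q.1 ≠ u.1 := by
        intro h'
        rcases eq_or_partner (show u.1 = d₀.1 from h'.symm) with h'' | h''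
        · exact hcon2.1 h''
        · rw [h''] at hu'
          exact E_not hu' h4
      have e1 : u.1 ≠ p.1 := by
        intro h'
        rcases eq_or_partner (show u.1 = d₁.1 from h') with h'' | h''
        · exact hcon2.2 h''
        · rw [h''] at hu
          exact E_not hu k4
      exact hcon u hu hu' (tf_red htf h3 hu e0) (tf_red htf' hu' k3 e1)
    -- all common neighbours in the other colour are joined to `d₀`, `d₁`, `p`, `q` in colour `b`
    have hall : ∀ x, E c (!b) v x → E c (!b) v' x →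
        E c b x d₀ ∧ E c b x d₁ ∧ E c b x p ∧ E c b x q := by
      intro x hx hx'
      have hpv : partner v' = v := partner_partner v
      refine ⟨step2 hc hno htf h1 h3 h4 k2 hdd hx hx',
        step2 hc hno (v := v') htf' k1 k3 (by rw [hpv]; exact k4) h2 (Ne.symm hdd) hx'
          (by rw [hpv]; exact hx), ?_, ?_⟩
      · have hne : x.1 ≠ p.1 := by
          intro h
          rcases eq_or_partner h with h' | h'
          · rw [h'] at hx'
            exact E_not k3 hx'
          · rw [hp, partner_partner] at h'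
            rw [h'] at hx
            exact E_not k2 hx
        rcases E_or c b hne with h | h
        · exact h
        · exfalso
          exact hno (cov1 x hx hx' h)
      · have hne : x.1 ≠ q.1 := by
          intro h
          rcases eq_or_partner h with h' | h'
          · rw [h'] at hx
            exact E_not h3 hx
          · rw [hq, partner_partner] at h'
            rw [h'] at hx
            exact E_not h1 hx
        rcases E_or c b hne with h | h
        · exact h
        · exfalso
          exact hno (cov2 x hx hx' h)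
    have kv : ∀ x, v = x ∨ E c b v x ∨ ∃ z ∈ (Set.univ : Set (Vert m)), E c b v z ∧ E c b z x := by
      intro x
      rcases cls x with h | h | h | h | h
      · exact Or.inl h.symm
      · rw [h]; exact Or.inr (Or.inr ⟨d₀, trivial, h1, h2.symm hc⟩)
      · exact Or.inr (Or.inr ⟨d₀, trivial, h1, (hall x h.1 h.2).1.symm hc⟩)
      · exact Or.inr (Or.inl h)
      · rw [h]; exact Or.inr (Or.inr ⟨q, trivial, h3, hqp⟩)
    have kv' : ∀ x, v' = x ∨ E c b v' x ∨
        ∃ z ∈ (Set.univ : Set (Vert m)), E c b v' z ∧ E c b z x := by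
      intro x
      rcases cls' x with h | h | h | h | h
      · rw [h]; exact Or.inr (Or.inr ⟨d₀, trivial, h2, h1.symm hc⟩)
      · exact Or.inl h.symm
      · exact Or.inr (Or.inr ⟨d₀, trivial, h2, (hall x h.1 h.2).1.symm hc⟩)
      · exact Or.inr (Or.inl h)
      · rw [h]; exact Or.inr (Or.inr ⟨p, trivial, k3, hqp.symm hc⟩)
    have kA : ∀ y, E c (!b) v y → E c (!b) v' y → ∀ x, y = x ∨ E c b y x ∨
        ∃ z ∈ (Set.univ : Set (Vert m)), E c b y z ∧ E c b z x := by
      intro y hy hy' x
      obtain ⟨g1, g2, g3, g4⟩ := hall y hy hy'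
      rcases cls x with h | h | h | h | h
      · rw [h]; exact Or.inr (Or.inr ⟨d₀, trivial, g1, h1.symm hc⟩)
      · rw [h]; exact Or.inr (Or.inr ⟨d₀, trivial, g1, h2.symm hc⟩)
      · exact Or.inr (Or.inr ⟨d₀, trivial, g1, (hall x h.1 h.2).1.symm hc⟩)
      · rcases E_or c b (show v'.1 ≠ x.1 from h.1) with h' | h'
        · rcases hD x h h' with h'' | h''
          · rw [h'']; exact Or.inr (Or.inl g1)
          · rw [h'']; exact Or.inr (Or.inl g2)
        · rw [h5 x h h']; exact Or.inr (Or.inl g4)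
      · rw [h]; exact Or.inr (Or.inl g3)
    have kB : ∀ x, E c b v x → p = x ∨ E c b p x ∨
        ∃ z ∈ (Set.univ : Set (Vert m)), E c b p z ∧ E c b z x := by
      intro x h
      rcases E_or c b (show v'.1 ≠ x.1 from h.1) with h' | h'
      · exact Or.inr (Or.inr ⟨v', trivial, k3.symm hc, h'⟩)
      · rw [h5 x h h']; exact Or.inr (Or.inl (hqp.symm hc))
    have flip : ∀ x y, (x = y ∨ E c b x y ∨
        ∃ z ∈ (Set.univ : Set (Vert m)), E c b x z ∧ E c b z y) →
        (y = x ∨ E c b y x ∨ ∃ z ∈ (Set.univ : Set (Vert m)), E c b y z ∧ E c b z x) := by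
      rintro x y (h | h | ⟨z, hz, h, h'⟩)
      · exact Or.inl h.symm
      · exact Or.inr (Or.inl (h.symm hc))
      · exact Or.inr (Or.inr ⟨z, hz, h'.symm hc, h.symm hc⟩)
    have hnear : Near c b (Set.univ : Set (Vert m)) := by
      intro u _ w _
      rcases cls u with h | h | h | h | h
      · rw [h]; exact kv w
      · rw [h]; exact kv' w
      · exact kA u h.1 h.2 w
      · rcases cls w with g | g | g | g | g
        · rw [g]; exact flip _ _ (kv u)
        · rw [g]; exact flip _ _ (kv' u)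
        · exact flip _ _ (kA w g.1 g.2 u)
        · exact Or.inr (Or.inr ⟨v, trivial, h.symm hc, g⟩)
        · rw [g]; exact flip _ _ (kB u h)
      · rcases cls w with g | g | g | g | g
        · rw [g]; exact flip _ _ (kv u)
        · rw [g]; exact flip _ _ (kv' u)
        · exact flip _ _ (kA w g.1 g.2 u)
        · rw [h]; exact kB w g
        · exact Or.inl (h.trans g.symm)
    exact hno (cover_of hc hnear hnear (fun u => Or.inl trivial))
  -- the last cover
  apply hno
  refine cover_of hc (b₁ := !b) (b₂ := !b)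
    (S := {u | u = v ∨ u = v' ∨ (E c (!b) v u ∧ E c (!b) v' u) ∨ u = a})
    (T := {u | E c b v u ∨ E c b v' u}) ?_ ?_ ?_
  · intro u hu w hw
    have aS : a ∈ {u | u = v ∨ u = v' ∨ (E c (!b) v u ∧ E c (!b) v' u) ∨ u = a} :=
      Or.inr (Or.inr (Or.inr rfl))
    have vS : v ∈ {u | u = v ∨ u = v' ∨ (E c (!b) v u ∧ E c (!b) v' u) ∨ u = a} := Or.inl rfl
    have hu' : u = v ∨ u = v' ∨ (E c (!b) v u ∧ E c (!b) v' u) := by
      rcases hu with h | h | h | h
      · exact Or.inl h
      · exact Or.inr (Or.inl h)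
      · exact Or.inr (Or.inr h)
      · rw [h]; exact Or.inr (Or.inr ⟨hav, hav'⟩)
    have hw' : w = v ∨ w = v' ∨ (E c (!b) v w ∧ E c (!b) v' w) := by
      rcases hw with h | h | h | h
      · exact Or.inl h
      · exact Or.inr (Or.inl h)
      · exact Or.inr (Or.inr h)
      · rw [h]; exact Or.inr (Or.inr ⟨hav, hav'⟩)
    rcases hu' with hu | hu | hu <;> rcases hw' with hw | hw | hw
    · exact Or.inl (hu.trans hw.symm)
    · rw [hu, hw]; exact Or.inr (Or.inr ⟨a, aS, hav, hav'.symm hc⟩)
    · rw [hu]; exact Or.inr (Or.inl hw.1)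
    · rw [hu, hw]; exact Or.inr (Or.inr ⟨a, aS, hav', hav.symm hc⟩)
    · exact Or.inl (hu.trans hw.symm)
    · rw [hu]; exact Or.inr (Or.inl hw.2)
    · rw [hw]; exact Or.inr (Or.inl (hu.1.symm hc))
    · rw [hw]; exact Or.inr (Or.inl (hu.2.symm hc))
    · exact Or.inr (Or.inr ⟨v, vS, hu.1.symm hc, hw.1⟩)
  · have key : ∀ u w, E c b v u → E c b v' w →
        u = w ∨ E c (!b) u w ∨ ∃ z ∈ {u | E c b v u ∨ E c b v' u}, E c (!b) u z ∧ E c (!b) z w := by
      intro u w hu hw
      rcases E_or c b (show v'.1 ≠ u.1 from hu.1) with h | h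
      · rcases nB' u h w hw with h | h | ⟨z, hz, h⟩
        · exact Or.inl h
        · exact Or.inr (Or.inl h)
        · exact Or.inr (Or.inr ⟨z, Or.inr hz, h⟩)
      · have hu1 := h5 u hu h
        rcases E_or c b (show v.1 ≠ w.1 from hw.1) with h' | h'
        · rcases nB u hu w h' with h | h | ⟨z, hz, h⟩
          · exact Or.inl h
          · exact Or.inr (Or.inl h)
          · exact Or.inr (Or.inr ⟨z, Or.inl hz, h⟩)
        · have hw1 := k5 w hw h'
          rw [hu1, hw1]
          rcases hpq with hpq | ⟨z, hz1, -, hz3, hz4⟩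
          · exact Or.inr (Or.inl hpq)
          · exact Or.inr (Or.inr ⟨z, Or.inl hz1, hz3, hz4⟩)
    intro u hu w hw
    rcases hu with hu | hu <;> rcases hw with hw | hw
    · rcases nB u hu w hw with h | h | ⟨z, hz, h⟩
      · exact Or.inl h
      · exact Or.inr (Or.inl h)
      · exact Or.inr (Or.inr ⟨z, Or.inl hz, h⟩)
    · exact key u w hu hw
    · rcases key w u hw hu with h | h | ⟨z, hz, h, h'⟩
      · exact Or.inl h.symm
      · exact Or.inr (Or.inl (h.symm hc))
      · exact Or.inr (Or.inr ⟨z, hz, h'.symm hc, h.symm hc⟩)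
    · rcases nB' u hu w hw with h | h | ⟨z, hz, h⟩
      · exact Or.inl h
      · exact Or.inr (Or.inl h)
      · exact Or.inr (Or.inr ⟨z, Or.inr hz, h⟩)
  · intro u
    rcases cls u with h | h | h | h | h
    · exact Or.inl (Or.inl h)
    · exact Or.inl (Or.inr (Or.inl h))
    · exact Or.inl (Or.inr (Or.inr (Or.inl h)))
    · exact Or.inr (Or.inl h)
    · rw [h]; exact Or.inr (Or.inr k3)

/-- Every 2-coloured cocktail-party graph has a `(2, 3)`-cover. -/
theorem cover23 (m : ℕ) (c : Vert m → Vert m → Bool) (hc : ∀ u w, c u w = c w u) :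
    HasCover c 2 3 := by
  by_cases h22 : HasCover c 2 2
  · obtain ⟨H₁, H₂, h1, h2, h3, h4, h5⟩ := h22
    refine ⟨H₁, H₂, h1, h2, h3, fun u w => ?_, h5⟩
    obtain ⟨p, hp⟩ := h4 u w
    exact ⟨p, by omega⟩
  · rcases m with _ | m
    · refine ⟨sub c hc true Set.univ, sub c hc true Set.univ, ⟨_, sub_mono _ _ _ _⟩,
        ⟨_, sub_mono _ _ _ _⟩, fun u => u.1.1.elim0, fun u => u.1.1.elim0, ?_⟩
      ext u
      exact u.1.elim0
    · obtain ⟨⟨z, hz1, hz2, hz3⟩, -⟩ := structure22 c hc h22 (0, true) true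
      set v : Vert (m + 1) := (0, true) with hv
      refine ⟨sub c hc false {u | u = v ∨ (v.1 ≠ u.1 ∧ c v u = false)},
        sub c hc true {u | u = v ∨ u = partner v ∨ (v.1 ≠ u.1 ∧ c v u = true)},
        ⟨_, sub_mono _ _ _ _⟩, ⟨_, sub_mono _ _ _ _⟩,
        star_diam c hc false v _ (Or.inl rfl) (fun u hu => hu),
        big_diam c hc true v (partner v) z _ (Or.inl rfl) (Or.inr (Or.inl rfl))
          (Or.inr (Or.inr ⟨fun h => hz1 h.symm, hz2⟩)) (fun h => hz1 h.symm) hz2
          (fun h => hz1 h.symm) hz3 (fun u hu => hu), ?_⟩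
      ext u
      simp only [Set.mem_union, Set.mem_univ, iff_true]
      by_cases hu : u.1 = v.1
      · rcases eq_or_partner hu with h | h
        · exact Or.inl (Or.inl h)
        · exact Or.inr (Or.inr (Or.inl h))
      · cases h1 : c v u
        · exact Or.inl (Or.inr ⟨fun h => hu h.symm, h1⟩)
        · exact Or.inr (Or.inr (Or.inr ⟨fun h => hu h.symm, h1⟩))


end Pool.Agent.N382.CP
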